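import Pool.Agent.H430.Dk.Opt

/-!
The inequality of Vojta on the projective line for closed points of bounded degree, with the
discriminant `d_K(x)` of the residue field, up to two explicit terms: the index outside `S` of the
order of `x` in the maximal order, and the excess of the mutual proximity of the conjugates at `S`
over their proximity to `D`; and its optimality.

`K` is a number field, `D` is the sum of the distinct points `a i` of `K`, and `x` is a point of
degree at most `r` over `K`, `L = K(x)`.  Places of `K` are `Pl K`, `ab L v` is the set of places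
of `L` above `v`, `nn v w` is the local degree, `prx v w a x` is the local height of `x` with
respect to `a` at `w`, normalised relative to `v`.  `E` is a Galois extension of `K` which
contains `L`, and `u v` is a place of `E` above `v`; `cjp` is the set of the pairs of distinct
conjugates of `x` in `E`, and `rho v (u v) y z` is their mutual proximity.

`relDisc K L = log |disc L| - [L : K] log |disc K|` is `[L : K] d_K(x)`, where `d_K(x)` is the
logarithmic discriminant of `x`.  It is the sum of the `dl v L`, the logarithms of the norms of the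
parts of the discriminant of `L` over `K` at the finite places `v`.  `dsc v x` is the part at `v` of
the discriminant of `x`, i.e. of its primitive minimal form; for a finite `v`, `dsc v x - dl v L` is
twice the logarithm of the index at `v` of the order of `x` in the maximal order of `L`.

By the formula which expresses the discriminant of `x` in terms of the distances of its
conjugates, part (1) is equivalent to the following inequality: the sum over `v ∈ S`, over the
points of `D` and over all pairs `y, z` of conjugates of `x` of the minimum of the local heights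
of `y` and `z` is at most `(2 [L : K] + ε) h(x) + C`
(see `Pool.Agent.H430.Cl.wirsing_clusters`).
-/

set_option autoImplicit false

namespace Pool.Agent.Results.MP_71c16a_nt.ConjugateClusters

open Finset NumberField Height Module Polynomial
open Pool.Agent.W180.OP (Pl)
open Pool.Agent.NH28 (Ov nn ab)
open Pool.Agent.H430.Cl (prx rho dsc cjp)
open Pool.Agent.H430.Dk (dl relDisc)

/-- `[L : K]` times the proximity of `x` to `D` -/
noncomputable def proximity {K L : Type} [Field K] [NumberField K] [Field L] [NumberField L]
    [Algebra K L] {q : ℕ} (S : Finset (Pl K)) (a : Fin q → K) (x : L) : ℝ :=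
  ∑ v ∈ S, ∑ i, ∑ w ∈ ab L v, nn v w * prx v w (a i) x

/-- the discriminant of `L` over `K` outside `S`, and twice the index outside `S` of the order of
`x` -/
noncomputable def discriminant {K L : Type} [Field K] [NumberField K] [Field L] [NumberField L]
    [Algebra K L] (S : Finset (Pl K)) (x : L) : ℝ :=
  (relDisc K L - ∑ v ∈ S, dl v L) + ∑ᶠ v ∈ ((S : Set (Pl K))ᶜ), (dsc v x - dl v L)

/-- the excess of the mutual proximity of the conjugates of `x` over their proximity to `D` -/
noncomputable def defect {K E : Type} [Field K] [NumberField K] [Field E] [NumberField E]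
    [Algebra K E] {q : ℕ} (S : Finset (Pl K)) (a : Fin q → K) (u : Pl K → Pl E) (x : E) : ℝ :=
  ∑ v ∈ S, ∑ p ∈ cjp K x, (rho v (u v) p.1 p.2 -
    ∑ i, min (prx v (u v) (a i) p.1) (prx v (u v) (a i) p.2))

theorem result {K : Type} [Field K] [NumberField K] {q : ℕ} (a : Fin q → K)
    (ha : Function.Injective a) (r : ℕ) :
    (∀ ε : ℝ, 0 < ε → ∃ Φ : K[X], Φ ≠ 0 ∧ ∀ S : Finset (Pl K), ∃ C : ℝ,
      ∀ (L : Type) [Field L] [NumberField L] [Algebra K L], finrank K L ≤ r → ∀ x : L,
        IntermediateField.adjoin K {x} = ⊤ → aeval x Φ ≠ 0 →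
        ∀ (E : Type) [Field E] [NumberField E] [Algebra K E] [Algebra L E] [IsScalarTower K L E]
          [IsGalois K E] (u : Pl K → Pl E), (∀ v ∈ S, Ov v (u v)) →
          proximity S a x ≤ (2 + ε) * logHeight ![1, x] + discriminant S x +
            defect S a u (algebraMap L E x) + C) ∧
    (1 ≤ r → ∀ m0 m1 : Fin q → ℕ, ∑ i, m0 i = r → ∑ i, m1 i = r →
      (∀ i, m0 i = 0 ∨ m1 i = 0) → (∀ d, (∀ i, d ∣ m0 i ∧ d ∣ m1 i) → d = 1) →
      ∃ (S : Finset (Pl K)) (P : Pl K → Fin q → ℕ) (C : ℝ), (∀ v ∈ S, P v = m0 ∨ P v = m1) ∧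
        (∃ v ∈ S, P v = m0) ∧ (∃ v ∈ S, P v = m1) ∧ ∀ B : ℝ,
        ∃ (L : Type) (_ : Field L) (_ : NumberField L) (_ : Algebra K L) (x : L),
          IntermediateField.adjoin K {x} = ⊤ ∧ finrank K L = r ∧ B < logHeight ![1, x] ∧
          (∀ i, x ≠ algebraMap K L (a i)) ∧
          (∃ e : Pl L → Fin q, ∀ v ∈ S, (∀ w ∈ ab L v, B < prx v w (a (e w)) x) ∧
            ∀ i, ∑ w ∈ ab L v, (if e w = i then nn v w else 0) = P v i) ∧
          ∀ (E : Type) [Field E] [NumberField E] [Algebra K E] [Algebra L E]
            [IsScalarTower K L E] [IsGalois K E] (u : Pl K → Pl E), (∀ v ∈ S, Ov v (u v)) →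
            2 * logHeight ![1, x] + discriminant S x + defect S a u (algebraMap L E x) - C ≤
              proximity S a x) := by
  have hdisc : ∀ (L : Type) [Field L] [NumberField L] [Algebra K L] (x : L)
      (E : Type) [Field E] [NumberField E] [Algebra K E] [Algebra L E] [IsScalarTower K L E]
      [IsGalois K E] (S : Finset (Pl K)),
      ∑ᶠ v ∈ ((S : Set (Pl K))ᶜ), dsc v x = discriminant S x := by
    intro L _ _ _ x E _ _ _ _ _ _ S
    refine Pool.Agent.H430.Dk.dsc_dif x ?_ S
    have := Pool.Agent.H430.Cl.discr_ne_zero (K := K) (algebraMap L E x)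
    rwa [minpoly.algebraMap_eq (algebraMap L E).injective] at this
  refine ⟨fun ε hε => ?_, fun hr m0 m1 h0 h1 hdj hg => ?_⟩
  · obtain ⟨Φ, hΦ0, _, h⟩ := Pool.Agent.H430.Cl.wirsing_clusters a ha r ε hε
    refine ⟨Φ, hΦ0, fun S => ?_⟩
    obtain ⟨C, hC⟩ := h S
    refine ⟨C, fun L _ _ _ hL x hx hΦ E _ _ _ _ _ _ u hu => ?_⟩
    rw [← hdisc L x E S]
    exact Pool.Agent.H430.Cl.vojta_of_clusters a hx S u hu ε C (hC L hL x hx hΦ)
  · obtain ⟨S, P, C, h2, h3, h4, h⟩ :=
      Pool.Agent.H430.Dk.clusters_opt a ha m0 m1 hr h0 h1 hdj hg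
    refine ⟨S, P, C, h2, h3, h4, fun B => ?_⟩
    obtain ⟨L, i1, i2, i3, x, h5, h6, h7, h8, h9, h10⟩ := h B
    refine ⟨L, i1, i2, i3, x, h5, h6, h7, h8, h9, fun E _ _ _ _ _ _ u hu => ?_⟩
    have h11 := Pool.Agent.H430.Dk.clusters_of_vojta a h5 S u hu
    rw [hdisc L x E S, h6] at h11
    unfold proximity defect
    rw [h11]
    linarith

end Pool.Agent.Results.MP_71c16a_nt.ConjugateClusters
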