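import Pool.Agent.H430.Ft.Shp3
import Pool.Agent.H430.Nm.Shp

/-!
Approximation of the closest divisors at each place by algebraic points of bounded degree, without
exceptional set: the `N + m` theorem.

`K` is a number field, `S` a finite set of places of `K`, `x` a point with coordinates in an
extension `L` of `K` of degree `δ`, and `loc v d F x` is the local height of the hypersurface
`F = 0` of degree `d` at `x` and the place `v` of `K`, summed over the places of `L` above `v`.
At each place `v` of `S` only the hypersurfaces of a set `I v` of at most `m` indices are taken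
into account, for instance the `m` closest ones.

(1) `X = {G = 0}` is any projective scheme over `K` and `D i = X ∩ {F i = 0}` are hypersurface sections
of degrees `d i`, no `N + 1` of which have a common point.  Then for ALL points `x` of degree
`δ ≤ r` on `X` which are on no `D i` the sum over `v` in `S` and `i` in `I v` of the local heights,
divided by the `d i`, is at most `(N δ + m + ε) h(x) + C`; here `m` may be replaced by `N δ` if it is
larger.  For `m = N δ` (all of the divisors) it is the bound `2 N δ`, the arithmetic analogue of the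
theorem of Eremenko and Sodin; it was proved first by helper426 (`TwoNTheorem`).

(2) The constant cannot be lowered, over any number field `K`, for `δ = 1` if `m` divides `N`
(`X = P ^ k`, `N = k μ`, `m = μ`), and for every `δ` if `m = N m'` and `m'` divides `δ` (`X = P ^ 1`;
for `m' = δ` this is the case `m = N δ`).

The proof of (1) is the induction of helper426 (`Pool.Agent.H426.Two`) with two parameters, the number
of the entries of the vectors of local heights which are taken into account and the number of the
divisors through a point: Noetherian induction over the irreducible subvarieties `V`, with the bound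
`N + m - b` for the sum over the divisors which do not contain `V`, where `b` is the number of those
which contain `V`.
-/

set_option autoImplicit false

namespace Pool.Agent.Results.MP_71c16a_nt.FewTargets

open MvPolynomial Finset NumberField Height Module
open Pool.Agent.W180.OP (Pl av wt bc lam nrm lam_eq eval_bc)
open Pool.Agent.NH28 (ab)
open Pool.Agent.H430.Ft (lf prox opt)

/-- the local height of the hypersurface `F = 0` of degree `d` at the place `v` of `K` -/
noncomputable def loc {K L : Type} [Field K] [NumberField K] [Field L] [NumberField L]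
    [Algebra K L] {n : ℕ} (v : Pl K) (d : ℕ) (F : MvPolynomial (Fin n) K) (x : Fin n → L) : ℝ :=
  ∑ w ∈ ab L v, wt w * (d * Real.log (⨆ j, av w (x j)) - Real.log (av w (aeval x F)))

/-- no `N + 1` of the hypersurfaces `F i = 0` have a common point on `{G = 0}` -/
def Subgeneral {K : Type} [Field K] {n mG q : ℕ} (N : ℕ) (G : Fin mG → MvPolynomial (Fin n) K)
    (F : Fin q → MvPolynomial (Fin n) K) : Prop :=
  ∀ J : Fin (N + 1) ↪ Fin q, ∀ (E : Type) [Field E] [Algebra K E] (x : Fin n → E),
    (∀ k, aeval x (G k) = 0) → (∀ k, aeval x (F (J k)) = 0) → x = 0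

/-- the linear form `X 0 + t X 1` -/
noncomputable def osc {K : Type} [Field K] (t : K) : MvPolynomial (Fin 2) K :=
  ∑ k : Fin 2, C (t ^ (k : ℕ)) * X k

lemma aeval_osc {K L : Type} [Field K] [Field L] [Algebra K L] (t : K)
    (x : Fin 2 → L) : aeval x (osc t) = lf x t := by
  unfold osc lf
  rw [map_sum]
  refine Finset.sum_congr rfl fun k _ => ?_
  rw [map_mul, algHom_C, aeval_X, mul_comm]

lemma loc_osc {K L : Type} [Field K] [NumberField K] [Field L] [NumberField L]
    [Algebra K L] (v : Pl K) (t : K) (x : Fin 2 → L) :
    loc v 1 (osc t) x = prox v t x := by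
  unfold loc prox
  rw [aeval_osc, Nat.cast_one]
  refine Finset.sum_congr rfl fun w _ => ?_
  rw [one_mul]
  rfl

lemma card_filter_divNat {a m : ℕ} (P : Fin a → Prop) [DecidablePred P] :
    ((Finset.univ : Finset (Fin (a * m))).filter fun i => P i.divNat).card =
      (Finset.univ.filter P).card * m := by
  classical
  have h6 : ((Finset.univ : Finset (Fin (a * m))).filter fun i => P i.divNat).card =
      (((Finset.univ : Finset (Fin a × Fin m)).filter fun p => P p.1)).card := by
    refine Finset.card_equiv finProdFinEquiv.symm fun i => ?_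
    simp [finProdFinEquiv]
  rw [h6]
  have h7 : ((Finset.univ : Finset (Fin a × Fin m)).filter fun p => P p.1) =
      (Finset.univ.filter P) ×ˢ (Finset.univ : Finset (Fin m)) := by
    ext ⟨p1, p2⟩
    simp only [Finset.mem_filter, Finset.mem_univ, true_and, Finset.mem_product, and_true]
  rw [h7, Finset.card_product, Finset.card_univ, Fintype.card_fin]

lemma sum_filter_divNat {a m : ℕ} (P : Fin a → Prop) [DecidablePred P] (g : Fin a → ℝ) :
    ∑ i ∈ (Finset.univ : Finset (Fin (a * m))).filter (fun i => P i.divNat), g i.divNat =
      m * ∑ j ∈ Finset.univ.filter P, g j := by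
  classical
  have h6 : ∑ i ∈ (Finset.univ : Finset (Fin (a * m))).filter (fun i => P i.divNat), g i.divNat =
      ∑ p ∈ (Finset.univ : Finset (Fin a × Fin m)).filter (fun p => P p.1), g p.1 := by
    refine Finset.sum_equiv finProdFinEquiv.symm (fun i => ?_) fun i _ => ?_
    · simp [finProdFinEquiv]
    · simp [finProdFinEquiv]
  rw [h6]
  have h7 : ((Finset.univ : Finset (Fin a × Fin m)).filter fun p => P p.1) =
      (Finset.univ.filter P) ×ˢ (Finset.univ : Finset (Fin m)) := by
    ext ⟨p1, p2⟩
    simp only [Finset.mem_filter, Finset.mem_univ, true_and, Finset.mem_product, and_true]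
  rw [h7, Finset.sum_product, Finset.mul_sum]
  refine Finset.sum_congr rfl fun j _ => ?_
  show ∑ _y : Fin m, g j = _
  rw [Finset.sum_const, Finset.card_univ, Fintype.card_fin, nsmul_eq_mul]

/-- if every common zero of more than `k` of the `H j` is zero, then every common zero of more than
`k μ` of the `H j`, each of them repeated `μ` times, is zero -/
lemma subgeneral_repeat {K : Type} [Field K] {n a : ℕ} (k μ : ℕ)
    (H : Fin a → MvPolynomial (Fin n) K)
    (hH : ∀ (B : Finset (Fin a)), k < B.card → ∀ (E : Type) [Field E] [Algebra K E]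
      (x : Fin n → E), (∀ j ∈ B, aeval x (H j) = 0) → x = 0) :
    Subgeneral (k * μ) (Fin.elim0 : Fin 0 → MvPolynomial (Fin n) K)
      (fun i : Fin (a * μ) => H i.divNat) := by
  classical
  intro J E _ _ x _ hx
  refine hH (Finset.univ.filter fun j => aeval x (H j) = 0) ?_ E x fun j hj =>
    (Finset.mem_filter.1 hj).2
  by_contra hcon
  push Not at hcon
  have h3 : (Finset.univ.map J) ⊆
      (Finset.univ : Finset (Fin (a * μ))).filter fun i => aeval x (H i.divNat) = 0 := by
    intro i hi
    obtain ⟨t, _, rfl⟩ := Finset.mem_map.1 hi
    exact Finset.mem_filter.2 ⟨Finset.mem_univ _, hx t⟩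
  have h4 := Finset.card_le_card h3
  rw [Finset.card_map, Finset.card_univ, Fintype.card_fin,
    card_filter_divNat (fun j => aeval x (H j) = 0)] at h4
  have h5 := Nat.mul_le_mul_right μ hcon
  omega

theorem result {K : Type} [Field K] [NumberField K] :
    (∀ (n mG q N r : ℕ) (G : Fin mG → MvPolynomial (Fin n) K) (F : Fin q → MvPolynomial (Fin n) K)
      (d : Fin q → ℕ), (∀ k, ∃ g, (G k).IsHomogeneous g) →
      (∀ i, 1 ≤ d i ∧ (F i).IsHomogeneous (d i)) → Subgeneral N G F →
      ∀ (S : Finset (Pl K)) (ε : ℝ), 0 < ε → ∃ C : ℝ,
      ∀ (L : Type) [Field L] [NumberField L] [Algebra K L], finrank K L ≤ r →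
        ∀ x : Fin n → L, x ≠ 0 → (∀ k, aeval x (G k) = 0) → (∀ i, aeval x (F i) ≠ 0) →
        ∀ (m : ℕ) (I : Pl K → Finset (Fin q)), (∀ v ∈ S, (I v).card ≤ m) →
          ∑ v ∈ S, ∑ i ∈ I v, loc v (d i) (F i) x / d i ≤
            ((N * finrank K L + min m (N * finrank K L) : ℕ) + ε) * logHeight x + C) ∧
    (∀ k μ r m' : ℕ, 1 ≤ k → 1 ≤ μ → 1 ≤ r → m' ∣ r → k = 1 ∨ r = 1 →
      ∃ (q : ℕ) (F : Fin q → MvPolynomial (Fin (k + 1)) K) (S : Finset (Pl K))
      (I : Pl K → Finset (Fin q)), (∀ i, (F i).IsHomogeneous 1) ∧
      Subgeneral (k * μ) (Fin.elim0 : Fin 0 → _) F ∧ (∀ v, (I v).card ≤ m' * μ) ∧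
      ∀ c C : ℝ, c < k * μ * r + m' * μ →
        ∃ (L : Type) (_ : Field L) (_ : NumberField L) (_ : Algebra K L) (x : Fin (k + 1) → L),
          finrank K L = r ∧ IntermediateField.adjoin K {z | ∃ i j, z = x i / x j} = ⊤ ∧
          (∀ i, aeval x (F i) ≠ 0) ∧
          c * logHeight x + C < ∑ v ∈ S, ∑ i ∈ I v, loc v 1 (F i) x) := by
  refine ⟨?_, ?_⟩
  · intro n mG q N r G F d hG hF hgp S ε hε
    choose g hg using hG
    obtain ⟨C, h⟩ := Pool.Agent.H430.Nm.gen (r := r) G g hg F d (fun i => (hF i).1)
      (fun i => (hF i).2) hgp hε S
    refine ⟨C, fun L _ _ _ hL x hx hGx hFx m I hI => ?_⟩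
    have h1 := h L hL x hx hGx hFx m I hI
    have h2 : ∀ v i, loc v (d i) (F i) x = ∑ w ∈ ab L v, wt w * lam (av w) (d i) (bc L (F i)) x := by
      intro v i
      unfold loc
      refine Finset.sum_congr rfl fun w _ => ?_
      have h3 : eval x (bc L (F i)) = aeval x (F i) := eval_bc _ _
      rw [lam_eq (av w) (d i) _ hx (by rw [h3]; exact hFx i), h3]
      rfl
    simp only [h2]
    push_cast at h1 ⊢
    exact h1
  · intro k μ r m' hk hμ hr hm' hkr
    classical
    have hμ0 : (0 : ℝ) < μ := by exact_mod_cast hμ
    by_cases hr1 : r = 1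
    · subst hr1
      have hm1 : m' = 1 := Nat.dvd_one.1 hm'
      subst hm1
      obtain ⟨S, cl, h⟩ := Pool.Agent.H430.Nm.unit_points K k hk
      refine ⟨(k + 1) * μ, fun i => X i.divNat, S,
        fun v => Finset.univ.filter fun i => i.divNat = cl v, fun i => isHomogeneous_X K _,
        subgeneral_repeat k μ (fun j => X j) ?_, fun v => ?_, fun c C hc => ?_⟩
      · intro B hB E _ _ x hx
        have hB' : B = Finset.univ := by
          rw [← Finset.card_eq_iff_eq_univ, Fintype.card_fin]
          have := Finset.card_le_univ B
          rw [Fintype.card_fin] at this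
          omega
        ext j
        have := hx j (by rw [hB']; exact Finset.mem_univ _)
        rwa [aeval_X] at this
      · rw [card_filter_divNat (fun j => j = cl v), Finset.filter_eq' Finset.univ (cl v),
          if_pos (Finset.mem_univ _), Finset.card_singleton]
      · obtain ⟨x, hx0, hx⟩ := h (c / μ) (C / μ) (by
          rw [div_lt_iff₀ hμ0]
          push_cast at hc
          linarith)
        refine ⟨K, inferInstance, inferInstance, inferInstance, x, Module.finrank_self K, ?_,
          fun i => by rw [aeval_X]; exact hx0 _, ?_⟩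
        · rw [eq_top_iff]
          intro z _
          exact IntermediateField.algebraMap_mem _ z
        · have h1 : ∀ v ∈ S, ∑ i ∈ Finset.univ.filter (fun i : Fin ((k + 1) * μ) => i.divNat = cl v),
              loc v 1 (X i.divNat : MvPolynomial (Fin (k + 1)) K) x =
              μ * (wt v * (Real.log (nrm (av v) x) - Real.log (av v (x (cl v))))) := by
            intro v _
            have h2 : ∀ i ∈ Finset.univ.filter (fun i : Fin ((k + 1) * μ) => i.divNat = cl v),
                loc v 1 (X i.divNat : MvPolynomial (Fin (k + 1)) K) x =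
                wt v * (Real.log (nrm (av v) x) - Real.log (av v (x (cl v)))) := by
              intro i hi
              rw [(Finset.mem_filter.1 hi).2]
              unfold loc
              rw [Pool.Agent.H430.Nm.ab_self, Finset.sum_singleton, aeval_X, Nat.cast_one, one_mul]
              rfl
            rw [Finset.sum_congr rfl h2, Finset.sum_const, card_filter_divNat (fun j => j = cl v),
              Finset.filter_eq' Finset.univ (cl v), if_pos (Finset.mem_univ _),
              Finset.card_singleton, one_mul, nsmul_eq_mul]
          rw [Finset.sum_congr rfl h1, ← Finset.mul_sum]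
          have h3 := mul_lt_mul_of_pos_left hx hμ0
          have h4 : (μ : ℝ) * (c / μ * logHeight x + C / μ) = c * logHeight x + C := by
            field_simp
          rw [h4] at h3
          exact h3
    · have hk1 : k = 1 := by
        rcases hkr with h | h
        · exact h
        · exact absurd h hr1
      subst hk1
      have hm0 : 1 ≤ m' := Nat.pos_of_dvd_of_pos hm' hr
      have hmr : m' ≤ r := Nat.le_of_dvd hr hm'
      have hinj : Function.Injective (fun i : Fin (opt r m') => ((i : ℕ) : K)) := by
        intro i j h
        have h' : ((i : ℕ) : K) = ((j : ℕ) : K) := h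
        exact Fin.ext (by exact_mod_cast h')
      obtain ⟨S, I, hI, h⟩ := Pool.Agent.H430.Ft.sharp (fun i : Fin (opt r m') => ((i : ℕ) : K)) hinj r
        m' hm0 hmr (Or.inl hm') le_rfl
      have hopt : opt r m' = r + m' := by
        unfold opt
        rw [if_pos hm']
      refine ⟨opt r m' * μ, fun i => osc ((i.divNat : ℕ) : K), S,
        fun v => Finset.univ.filter fun i => i.divNat ∈ I v, fun i => ?_,
        subgeneral_repeat 1 μ (fun j => osc ((j : ℕ) : K)) ?_, fun v => ?_, fun c C hc => ?_⟩
      · refine IsHomogeneous.sum _ _ _ fun k _ => ?_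
        have := (isHomogeneous_C (Fin 2) (((i.divNat : ℕ) : K) ^ (k : ℕ))).mul (isHomogeneous_X K k)
        simpa using this
      · intro B hB E _ _ x hx
        obtain ⟨i, hi, j, hj, hij⟩ := Finset.one_lt_card.1 hB
        have h1 := hx i hi
        have h2 := hx j hj
        rw [aeval_osc] at h1 h2
        unfold lf at h1 h2
        rw [Fin.sum_univ_two] at h1 h2
        simp only [Fin.val_zero, pow_zero, map_one, mul_one, Fin.val_one, pow_one] at h1 h2
        have h3 : x 1 * (algebraMap K E (((i : ℕ) : K) - ((j : ℕ) : K))) = 0 := by
          rw [map_sub]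
          linear_combination h1 - h2
        have h4 : algebraMap K E (((i : ℕ) : K) - ((j : ℕ) : K)) ≠ 0 := by
          rw [Ne, map_eq_zero, sub_eq_zero]
          intro h
          exact hij (hinj h)
        have h5 : x 1 = 0 := (mul_eq_zero.1 h3).resolve_right h4
        have h6 : x 0 = 0 := by
          rw [h5, zero_mul, add_zero] at h1
          exact h1
        ext t
        fin_cases t
        · exact h6
        · exact h5
      · rw [card_filter_divNat (fun j => j ∈ I v), Finset.filter_mem_eq_inter,
          Finset.univ_inter]
        exact Nat.mul_le_mul_right μ (hI v)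
      · obtain ⟨L, i1, i2, i3, x, h2, h3, h4, h5⟩ := h (c / μ) (C / μ) (by
          rw [div_lt_iff₀ hμ0, hopt]
          push_cast at hc ⊢
          linarith)
        refine ⟨L, i1, i2, i3, ![-x, 1], h3, ?_, fun i => ?_, ?_⟩
        · rw [eq_top_iff, ← h2, IntermediateField.adjoin_simple_le_iff]
          have h6 : -x ∈ IntermediateField.adjoin K
              {z : L | ∃ i j, z = (![-x, 1] : Fin 2 → L) i / (![-x, 1] : Fin 2 → L) j} :=
            IntermediateField.subset_adjoin K _ ⟨0, 1, by simp⟩
          have h7 := neg_mem h6
          rwa [neg_neg] at h7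
        · rw [aeval_osc]
          exact h4 i.divNat
        · have h6 : ∀ v ∈ S, ∑ i ∈ Finset.univ.filter (fun i : Fin (opt r m' * μ) => i.divNat ∈ I v),
              loc v 1 (osc ((i.divNat : ℕ) : K)) ![-x, 1] =
              μ * ∑ i ∈ I v, prox v ((i : ℕ) : K) ![-x, 1] := by
            intro v _
            have h9 := sum_filter_divNat (m := μ) (fun j => j ∈ I v)
              (fun j : Fin (opt r m') => loc v 1 (osc ((j : ℕ) : K)) ![-x, 1])
            rw [h9, Finset.filter_mem_eq_inter, Finset.univ_inter]
            congr 1
            exact Finset.sum_congr rfl fun j _ => loc_osc v _ _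
          rw [Finset.sum_congr rfl h6, ← Finset.mul_sum]
          have h7 := mul_lt_mul_of_pos_left h5 hμ0
          have h8 : (μ : ℝ) * (c / μ * logHeight ![-x, 1] + C / μ) =
              c * logHeight ![-x, 1] + C := by
            field_simp
          rw [h8] at h7
          exact h7

end Pool.Agent.Results.MP_71c16a_nt.FewTargets
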