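import Pool.Agent.H430.Dk.Half

/-!
For generic closed points of degree `r` of the projective line, half of the discriminant is enough
in the inequality of Vojta.

`K` is a number field, `D` is the sum of the distinct points `a i` of `K`, and `x` is a point of
degree `r` over `K`, `L = K(x)`, whose minimal polynomial is on none of finitely many
hyperplanes of the space of polynomials of degree at most `r`; the hyperplanes depend on `K`,
`r` and the `a i` only.  Then the proximity of `x` to `D` at `S` is at most
`(2 + ε) h(x) + ([L : K] d_K(x) + J) / 2 + Def / 2 + C`.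

Here `[L : K] d_K(x) = relDisc K L` is the logarithm of the norm of the discriminant of `L` over
`K`; `J` is the sum over the places outside `S` of the differences `dsc v x - dl v L` of the
discriminant of `x` (of its primitive minimal form) and of the discriminant of `L` over `K`, which
for a finite `v` is twice the logarithm of the index at `v` of the order of `x` in the maximal
order; and `Def` is the excess at `S` of the mutual proximity of the conjugates of `x` over their
proximity to `D`.  The contribution of `S` to `relDisc K L` is subtracted.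

The coefficients `2` and `1 / 2` are optimal: for `K = ℚ` and every `r` there are `a_1, ..., a_{2r}`
and a finite set `S0` such that for all `S` which contain `S0`, all finite sets of hyperplanes and
all `ε`, there are points of degree `r` off the hyperplanes, of arbitrarily large height, for which
the inequality is reversed up to `ε h(x)`, and for which the sum of the discriminant term and of
`Def` is at least `(2 r - 2 - ε) h(x)`.
-/

set_option autoImplicit false

namespace Pool.Agent.Results.MP_71c16a_nt.HalfDiscriminant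

open Finset NumberField Height Module Polynomial
open Pool.Agent.W180.OP (Pl)
open Pool.Agent.NH28 (Ov nn ab)
open Pool.Agent.H430.Cl (prx rho dsc cjp)
open Pool.Agent.H430.Dk (dl relDisc)

/-- `[L : K]` times the proximity of `x` to `D` -/
noncomputable def proximity {K L : Type} [Field K] [NumberField K] [Field L] [NumberField L]
    [Algebra K L] {q : ℕ} (S : Finset (Pl K)) (a : Fin q → K) (x : L) : ℝ :=
  ∑ v ∈ S, ∑ i, ∑ w ∈ ab L v, nn v w * prx v w (a i) x

/-- the discriminant of `L` over `K` outside `S`, and twice the index outside `S` of the order of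
`x` -/
noncomputable def discriminant {K L : Type} [Field K] [NumberField K] [Field L] [NumberField L]
    [Algebra K L] (S : Finset (Pl K)) (x : L) : ℝ :=
  (relDisc K L - ∑ v ∈ S, dl v L) + ∑ᶠ v ∈ ((S : Set (Pl K))ᶜ), (dsc v x - dl v L)

/-- the excess of the mutual proximity of the conjugates of `x` over their proximity to `D` -/
noncomputable def defect {K E : Type} [Field K] [NumberField K] [Field E] [NumberField E]
    [Algebra K E] {q : ℕ} (S : Finset (Pl K)) (a : Fin q → K) (u : Pl K → Pl E) (x : E) : ℝ :=
  ∑ v ∈ S, ∑ p ∈ cjp K x, (rho v (u v) p.1 p.2 -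
    ∑ i, min (prx v (u v) (a i) p.1) (prx v (u v) (a i) p.2))

theorem result :
    (∀ (K : Type) [Field K] [NumberField K] (q : ℕ) (a : Fin q → K), Function.Injective a →
      ∀ r : ℕ, ∃ Z : Finset (Fin (r + 1) → K), (∀ z ∈ Z, z ≠ 0) ∧
      ∀ (S : Finset (Pl K)) (ε : ℝ), 0 < ε → ∃ C : ℝ,
      ∀ (L E : Type) [Field L] [NumberField L] [Field E] [NumberField E]
      [Algebra K L] [Algebra L E] [Algebra K E] [IsScalarTower K L E] [IsGalois K E] (x : L),
      IntermediateField.adjoin K {x} = ⊤ → finrank K L = r →
      (∀ z ∈ Z, ∑ j, z j * (minpoly K x).coeff j ≠ 0) →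
      ∀ u : Pl K → Pl E, (∀ v ∈ S, Ov v (u v)) →
        proximity S a x ≤ (2 + ε) * logHeight ![1, x] + (1 / 2) * discriminant S x +
          (1 / 2) * defect S a u (algebraMap L E x) + C) ∧
    (∀ r : ℕ, 0 < r → ∃ a : Fin (2 * r) → ℚ, Function.Injective a ∧ ∃ S0 : Finset (Pl ℚ),
      ∀ S, S0 ⊆ S → ∀ Z : Finset (Fin (r + 1) → ℚ), (∀ z ∈ Z, z ≠ 0) →
      ∀ ε : ℝ, 0 < ε → ∀ C B : ℝ,
      ∃ (L : Type) (_ : Field L) (_ : NumberField L) (_ : Algebra ℚ L) (x : L),
        IntermediateField.adjoin ℚ {x} = ⊤ ∧ finrank ℚ L = r ∧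
        (∀ i, x ≠ algebraMap ℚ L (a i)) ∧
        (∀ z ∈ Z, ∑ j, z j * (minpoly ℚ x).coeff j ≠ 0) ∧ B < logHeight ![1, x] ∧
        ∀ (E : Type) [Field E] [NumberField E] [Algebra ℚ E] [Algebra L E] [IsScalarTower ℚ L E]
          [IsGalois ℚ E] (u : Pl ℚ → Pl E), (∀ v ∈ S, Ov v (u v)) →
          (2 - ε) * logHeight ![1, x] + (1 / 2) * discriminant S x +
            (1 / 2) * defect S a u (algebraMap L E x) + C ≤ proximity S a x ∧
          (2 * r - 2 - ε) * logHeight ![1, x] ≤
            discriminant S x + defect S a u (algebraMap L E x)) := by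
  have hdisc : ∀ (K L : Type) [Field K] [NumberField K] [Field L] [NumberField L] [Algebra K L]
      (x : L) (E : Type) [Field E] [NumberField E] [Algebra K E] [Algebra L E]
      [IsScalarTower K L E] [IsGalois K E] (S : Finset (Pl K)),
      ∑ᶠ v ∈ ((S : Set (Pl K))ᶜ), dsc v x = discriminant S x := by
    intro K L _ _ _ _ _ x E _ _ _ _ _ _ S
    refine Pool.Agent.H430.Dk.dsc_dif x ?_ S
    have := Pool.Agent.H430.Cl.discr_ne_zero (K := K) (algebraMap L E x)
    rwa [minpoly.algebraMap_eq (algebraMap L E).injective] at this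
  refine ⟨?_, ?_⟩
  · intro K _ _ q a ha r
    obtain ⟨Z, hZ, h⟩ := Pool.Agent.H430.Hf.half_core a ha r
    refine ⟨Z, hZ, fun S ε hε => ?_⟩
    obtain ⟨C, hC⟩ := h S (2 * ε) (by positivity)
    refine ⟨C / 2, fun L E _ _ _ _ _ _ _ _ _ x hx hr hz u hu => ?_⟩
    have h1 := Pool.Agent.H430.Hf.half_disc a hx S u hu (2 * ε) C (by
      rw [hr]
      exact hC L E x hx hr hz u hu)
    have e : 2 * ε / 2 = ε := by ring
    rw [e, hdisc K L x E S] at h1
    exact h1
  · intro r hr
    obtain ⟨a, ha, S0, h⟩ := Pool.Agent.H430.Dk.half_opt r hr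
    refine ⟨a, ha, S0, fun S hS Z hZ ε hε C B => ?_⟩
    obtain ⟨L, i1, i2, i3, x, h1, h2, h3, h4, h5, h6⟩ := h S hS Z hZ ε hε C B
    refine ⟨L, i1, i2, i3, x, h1, h2, h3, h4, h5, fun E _ _ _ _ _ _ u hu => ?_⟩
    obtain ⟨h7, h8⟩ := h6 E u hu _ rfl
    rw [hdisc ℚ L x E S] at h7 h8
    have h9 : (1 / 2) * discriminant S x + (1 / 2) * defect S a u (algebraMap L E x) =
        (discriminant S x + defect S a u (algebraMap L E x)) / 2 := by ring
    refine ⟨?_, h8⟩
    rw [add_assoc ((2 - ε) * logHeight ![1, x]), h9]
    exact h7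

end Pool.Agent.Results.MP_71c16a_nt.HalfDiscriminant
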