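import Pool.Agent.H426.Sub.All

set_option autoImplicit false

/-!
# The sharp proximity bound `2 N [k(x) : k]` for ALL points of bounded degree

`X = {G = 0}` is any projective scheme over a number field `K` and `W i = X ∩ {w i = 0}`, `i < q`,
are closed subschemes in `N`-subgeneral position: the intersection of every `k ≤ N + 1` of them has
dimension at most `N - k` (dimension `-1` means that it is empty; a subscheme may be repeated). Then
`∑ i, γ i * m_{S, W i}(x) ≤ (2 N δ + ε) h(x) + C` for ALL points `x` of degree `δ ≤ r` of `X` which
are in no `W i`: there is no exceptional set, and `2 N δ` cannot be lowered. Here `γ i` is at most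
the supremum of the quotients `m / d` such that the forms of degree `d` in the `m`-th power of the
ideal sheaf of `W i` have no common zeros on `X` outside `W i`: `1 / d` for a hypersurface section
of degree `d`, and at least the Seshadri constant of `W i` with respect to `O(1)` in general.
For hyperplanes in general position in `ℙ^n` this is Ru's conjecture (`N = n`, `γ = 1`); for points
`P i` of `X`, each of them repeated `n = dim X` times, it is
`∑ i, γ i * m_{S, P i}(x) ≤ (2 δ + ε) h(x) + C`.

Method. (1) Suppose first that the `W i` are hypersurface sections. The vector `y` of the norms of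
the equations at `x` is a rational point of a projective scheme `Y` on which no `N δ + 1` coordinate
hyperplanes meet; so it is enough to treat `δ = 1` and coordinate hyperplanes. (2) For every
irreducible `V` in `Y` and every family of bases, one for each place of `S`, of the forms of degree
`M` on `V` which consist of products of variables and forms, the subspace theorem bounds the sum of
the local heights, weighted by the exponents of the variables. (3) The new step derives from these
inequalities, the first main theorem and the sparsity of the vectors of local heights that the sum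
of the proximity functions of the variables outside the ideal of `V` is at most
`(2 N δ - b + ε) h(y)`, `b` the number of the variables in the ideal: after a rescaling of the
vectors (a linear programming step) one proximity function is maximal, the bases are filtered by
the powers of this variable, and its multiplicities use up exactly their share of the bound, so
that the inequalities of (2) pass to one of the components of the section; Noetherian induction.
(4) Noetherian induction again removes the exceptional set. (5) In general the `W i` are replaced
by general members `H i` of the linear systems above; no `N + 1` of them meet, and finitely many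
choices of them suffice: every point outside the `W i` avoids all members of one of the choices.
-/

namespace Pool.Agent.Results.MP_71c16a_nt.TwoNTheorem

open NumberField IsDedekindDomain

/-- The point with homogeneous coordinates `x` is a common zero of the forms `G k`. -/
def On {K E : Type} [Field K] [Field E] [Algebra K E] {m s : ℕ}
    (G : Fin m → MvPolynomial (Fin s) K) (x : Fin s → E) : Prop :=
  ∀ k, MvPolynomial.aeval x (G k) = 0

/-- The closed subschemes `W i = {w i = 0}` of `X = {G = 0}` are in `N`-subgeneral position: for
every set `I` of at most `N + 1` indices the intersection of the `W i`, `i ∈ I`, has dimension at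
most `N - |I|`. That is, the coordinate ring of each irreducible closed subset of it has
transcendence degree at most `N + 1 - |I|`. -/
def InSubgeneralPosition {K : Type} [Field K] {m s q : ℕ} (G : Fin m → MvPolynomial (Fin s) K)
    {p : Fin q → ℕ} (w : ∀ i, Fin (p i) → MvPolynomial (Fin s) K) (N : ℕ) : Prop :=
  ∀ (I : Finset (Fin q)) (P : Ideal (MvPolynomial (Fin s) K)), I.card ≤ N + 1 → P.IsPrime →
    (∀ k, G k ∈ P) → (∀ i ∈ I, ∀ j, w i j ∈ P) →
    Algebra.trdeg K (MvPolynomial (Fin s) K ⧸ P) + I.card ≤ N + 1

/-- There are forms `P j` of degree `d` in the `m`-th power of the ideal sheaf of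
`W = X ∩ {w = 0}` whose common zeros on `X = {G = 0}` lie on `W`. For the chart where the `k`-th
coordinate is not zero the first condition is that a power of this coordinate times `P j` belongs
to the `m`-th power of the ideal of `W`. -/
def Separates {K : Type} [Field K] {M s p : ℕ} (G : Fin M → MvPolynomial (Fin s) K)
    (w : Fin p → MvPolynomial (Fin s) K) (m d : ℕ) : Prop :=
  ∃ (t a : ℕ) (P : Fin t → MvPolynomial (Fin s) K), (∀ j, (P j).IsHomogeneous d ∧
    ∀ k, MvPolynomial.X k ^ a * P j ∈ Ideal.span (Set.range w) ^ m ⊔ Ideal.span (Set.range G)) ∧
    ∀ (E : Type) [Field E] [Algebra K E] (x : Fin s → E), x ≠ 0 → On G x → On P x → On w x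

/-- `γ` is at most the supremum of the quotients `m / d` with `Separates G w m d`. -/
def AtMostSeshadri {K : Type} [Field K] {M s p : ℕ} (G : Fin M → MvPolynomial (Fin s) K)
    (w : Fin p → MvPolynomial (Fin s) K) (γ : ℝ) : Prop :=
  ∀ η : ℝ, 0 < η → ∃ m d : ℕ, 1 ≤ d ∧ γ - η ≤ (m : ℝ) / d ∧ Separates G w m d

/-- The places of a number field: the archimedean places and the primes. -/
abbrev Place (L : Type) [Field L] [NumberField L] : Type :=
  InfinitePlace L ⊕ HeightOneSpectrum (𝓞 L)

/-- The place is archimedean or lies over a prime in `S`. -/
def Above {K L : Type} [Field K] [NumberField K] [Field L] [NumberField L] [Algebra K L]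
    (S : Finset (HeightOneSpectrum (𝓞 K))) : Place L → Prop
  | Sum.inl _ => True
  | Sum.inr w => ∃ v ∈ S, w.asIdeal.LiesOver v.asIdeal

/-- The absolute value of a place. At a prime it is the normalised one, with the value
`(N v) ^ (-ord_v x)` at `x ≠ 0`. -/
noncomputable def absv {L : Type} [Field L] [NumberField L] : Place L → L → ℝ
  | Sum.inl w => fun x => w x
  | Sum.inr v => fun x => FinitePlace.mk v x

/-- The exponent of the absolute value of a place in the product formula: `1` at real places and at
primes, `2` at complex places. -/
noncomputable def weight {L : Type} [Field L] [NumberField L] : Place L → ℝ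
  | Sum.inl w => w.mult
  | Sum.inr _ => 1

/-- The local height of the closed subscheme `{w = 0}`, `w j` of degree `e j`, at the point with
homogeneous coordinates `x`: the minimum of the local heights of the forms `w j`. -/
noncomputable def weil {K L : Type} [Field K] [Field L] [NumberField L] [Algebra K L] {s p : ℕ}
    (v : Place L) (e : Fin p → ℕ) (w : Fin p → MvPolynomial (Fin s) K) (x : Fin s → L) : ℝ :=
  -Real.log (⨆ j, absv v (MvPolynomial.aeval x (w j)) / (⨆ k, absv v (x k)) ^ e j)

/-- The proximity function of the closed subscheme `{w = 0}` in absolute normalisation, for the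
finite set `T` of places of `L`. -/
noncomputable def proximity {K L : Type} [Field K] [Field L] [NumberField L] [Algebra K L]
    {s p : ℕ} (T : Finset (Place L)) (e : Fin p → ℕ) (w : Fin p → MvPolynomial (Fin s) K)
    (x : Fin s → L) : ℝ :=
  (∑ v ∈ T, weight v * weil v e w x) / Module.finrank ℚ L

/-- The absolute logarithmic height. -/
noncomputable def height {L : Type} [Field L] [NumberField L] {s : ℕ} (x : Fin s → L) : ℝ :=
  Height.logHeight x / Module.finrank ℚ L

/-- Let `X = {G = 0}` be a projective scheme over a number field `K` and let the closed subschemes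
`W i = {w i = 0}`, `i < q`, of `X` be in `N`-subgeneral position. Let `γ i` be at most the supremum
of the quotients `m / d` such that the forms of degree `d` in the `m`-th power of the ideal sheaf of
`W i` have no common zeros on `X` outside `W i`. For every `r`, every `ε > 0` and every finite set
`S` of primes of `K` there is `C` such that for EVERY number field `L` of degree at most `r` over
`K`, every point `x` of `X` with coordinates in `L` which is in no `W i`, and every finite set `T`
of places of `L` which are archimedean or lie over `S`,
`∑ i, γ i * m_{T, W i}(x) ≤ (2 N [L : K] + ε) h(x) + C`. -/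
theorem result (K : Type) [Field K] [NumberField K] (m s q N r : ℕ)
    (G : Fin m → MvPolynomial (Fin s) K) (g : Fin m → ℕ) (hG : ∀ k, (G k).IsHomogeneous (g k))
    (p : Fin q → ℕ) (e : ∀ i, Fin (p i) → ℕ) (w : ∀ i, Fin (p i) → MvPolynomial (Fin s) K)
    (hw : ∀ i j, (w i j).IsHomogeneous (e i j)) (hN : InSubgeneralPosition G w N)
    (γ : Fin q → ℝ) (hγ : ∀ i, AtMostSeshadri G (w i) (γ i)) (ε : ℝ) (hε : 0 < ε)
    (S : Finset (HeightOneSpectrum (𝓞 K))) :
    ∃ C : ℝ, ∀ (L : Type) [Field L] [NumberField L] [Algebra K L], Module.finrank K L ≤ r →
      ∀ x : Fin s → L, x ≠ 0 → On G x → (∀ i, ¬ On (w i) x) →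
        ∀ T : Finset (Place L), (∀ v ∈ T, Above S v) →
          ∑ i, γ i * proximity T (e i) (w i) x ≤
            (2 * N * Module.finrank K L + ε) * height x + C := by
  classical
  have hweil : ∀ (L : Type) [Field L] [NumberField L] [Algebra K L] (v : Place L) {p : ℕ}
      (e : Fin p → ℕ) (w : Fin p → MvPolynomial (Fin s) K)
      (x : Fin s → L), weil v e w x =
      Pool.Agent.H426.Sub.slam (Pool.Agent.W180.OP.av v) e w x := by
    intro L _ _ _ v p e w x
    cases v <;> rfl
  have hwt : ∀ (L : Type) [Field L] [NumberField L] (v : Place L),
      weight v = Pool.Agent.W180.OP.wt v := by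
    intro L _ _ v
    cases v <;> rfl
  have hpos : Pool.Agent.H426.Sub.Pos (Ideal.span (Set.range G))
      (fun i => Ideal.span (Set.range (w i))) N := by
    intro I P hI hP hGP hwP
    have h1 := hN I P hI hP (fun k => hGP (Ideal.subset_span ⟨k, rfl⟩))
      (fun i hi j => hwP i hi (Ideal.subset_span ⟨j, rfl⟩))
    exact_mod_cast h1
  set S' : Finset (Pool.Agent.W180.OP.Pl K) := Finset.univ.image Sum.inl ∪ S.image Sum.inr with hS'
  obtain ⟨C, hC0, hC⟩ := Pool.Agent.H426.Sub.all (r := r) G g hG p e w hw hpos γ
    (fun i η hη => by
      obtain ⟨m, d, hd, hmd, t, a, P, hP, hPb⟩ := hγ i η hη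
      exact ⟨m, d, hd, hmd, t, a, P, hP, fun E _ _ x hx h1 h2 => hPb E x hx h1 h2⟩) hε S'
  refine ⟨C, ?_⟩
  intro L _ _ _ hrL x hx hGx hwx T hT
  have hN1 : (1 : ℝ) ≤ Module.finrank ℚ L := by
    exact_mod_cast (Module.finrank_pos : 0 < Module.finrank ℚ L)
  have hN0 : (0 : ℝ) < Module.finrank ℚ L := by linarith
  have h1 := hC L hrL x hx hGx (fun i => by
    have := hwx i
    unfold On at this
    push Not at this
    exact this) T (by
    intro v hv
    have h2 := hT v hv
    cases v with
    | inl w =>
      refine ⟨Sum.inl (w.comap (algebraMap K L)), ?_, rfl⟩
      exact Finset.mem_union_left _ (Finset.mem_image_of_mem _ (Finset.mem_univ _))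
    | inr w =>
      obtain ⟨v, hv, hvw⟩ := h2
      exact ⟨Sum.inr v, Finset.mem_union_right _ (Finset.mem_image_of_mem _ hv), hvw⟩)
  have e1 : ∑ i, γ i * proximity T (e i) (w i) x = (∑ v ∈ T, Pool.Agent.W180.OP.wt v *
      ∑ i, γ i * Pool.Agent.H426.Sub.slam (Pool.Agent.W180.OP.av v) (e i) (w i) x) /
      Module.finrank ℚ L := by
    unfold proximity
    simp_rw [hweil, hwt, Finset.mul_sum, Finset.sum_div]
    rw [Finset.sum_comm]
    simp_rw [Finset.mul_sum]
    refine Finset.sum_congr rfl fun v _ => Finset.sum_congr rfl fun i _ => ?_
    ring
  rw [e1, div_le_iff₀ hN0]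
  have e2 : ((2 * (N : ℝ) * Module.finrank K L + ε) * height x + C) *
      Module.finrank ℚ L = (2 * (N * Module.finrank K L) + ε) * Height.logHeight x +
        C * Module.finrank ℚ L := by
    unfold height
    field_simp
  rw [e2]
  have h2 : C ≤ C * Module.finrank ℚ L := le_mul_of_one_le_right hC0 hN1
  linarith

end Pool.Agent.Results.MP_71c16a_nt.TwoNTheorem
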